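import Pool.Agent.Run7.h890.XK.Val
import Pool.Agent.Run7.h135.XK.Stm

set_option autoImplicit false

open WithZero

namespace Run7.h890.XK

open Run7.h135.XK

variable {L : Type} [Field L] {v : Valuation L ℤᵐ⁰}

theorem le_of_lt_one {x : L} (h : v x < 1) : v x ≤ exp (-1 : ℤ) := by
  by_cases hx : x = 0
  · rw [hx, v.map_zero]; exact zero_le
  · rw [← exp_zero, lt_iff v hx] at h
    rw [le_iff v hx]
    omega

theorem exp_m1_lt : (exp (-1 : ℤ) : ℤᵐ⁰) < 1 := by
  rw [← exp_zero]; exact WithZero.exp_lt_exp.2 (by norm_num)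

theorem exp_m2_lt : (exp (-2 : ℤ) : ℤᵐ⁰) < 1 := by
  rw [← exp_zero]; exact WithZero.exp_lt_exp.2 (by norm_num)

theorem v2mul (hv2 : v 2 = exp (-1 : ℤ)) (m : ℤ) : v ((2 * m : ℤ) : L) ≤ exp (-1 : ℤ) := by
  push_cast
  rw [v.map_mul, hv2]
  calc exp (-1 : ℤ) * v (m : L) ≤ exp (-1 : ℤ) * 1 := mul_le_mul_right (v_int_le v m) _
    _ = exp (-1 : ℤ) := mul_one _

theorem v4mul (hv2 : v 2 = exp (-1 : ℤ)) (m : ℤ) : v ((4 * m : ℤ) : L) ≤ exp (-2 : ℤ) := by
  have h : ((4 * m : ℤ) : L) = 2 * ((2 * m : ℤ) : L) := by push_cast; ring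
  rw [h, v.map_mul, hv2]
  calc exp (-1 : ℤ) * v ((2 * m : ℤ) : L) ≤ exp (-1 : ℤ) * exp (-1 : ℤ) :=
        mul_le_mul_right (v2mul hv2 m) _
    _ = exp (-2 : ℤ) := by rw [← exp_add]; norm_num

theorem factB (hv2 : v 2 = exp (-1 : ℤ)) {a : ℤ} (ha : a % 2 = 1) {t : L}
    (h : v ((a : L) * t ^ 2 - 1) < 1) : v (t ^ 2 - 1) ≤ exp (-2 : ℤ) := by
  have hv : v ((2 : ℕ) : L) = exp (-1 : ℤ) := by simpa using hv2
  have va : v (a : L) = 1 := v_int_one Nat.prime_two hv (by
    intro hd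
    have : (2 : ℤ) ∣ a := by exact_mod_cast hd
    omega)
  have h1 : v ((a : L) - 1) < 1 := by
    have h2 := v2mul hv2 (L := L) (a / 2)
    have h3 : (2 * (a / 2) : ℤ) = a - 1 := by omega
    rw [h3] at h2
    push_cast at h2
    exact lt_of_le_of_lt h2 exp_m1_lt
  have h2 : v (t ^ 2 - 1) < 1 := by
    have h3 : v ((a : L) * (t ^ 2 - 1)) < 1 := by
      have h4 : (a : L) * (t ^ 2 - 1) = ((a : L) * t ^ 2 - 1) - ((a : L) - 1) := by ring
      rw [h4]
      exact lt_of_le_of_lt (v.map_sub _ _) (max_lt h h1)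
    rwa [v.map_mul, va, one_mul] at h3
  have h3 : v (t - 1) < 1 := by
    by_contra hge
    push Not at hge
    have h4 : v (t + 1) = v (t - 1) := by
      have h5 : t + 1 = (t - 1) + 2 := by ring
      rw [h5]
      refine v.map_add_eq_of_lt_left ?_
      rw [hv2]
      exact lt_of_lt_of_le exp_m1_lt hge
    have h5 : v (t ^ 2 - 1) = v (t - 1) * v (t - 1) := by
      have h6 : t ^ 2 - 1 = (t - 1) * (t + 1) := by ring
      rw [h6, v.map_mul, h4]
    rw [h5] at h2
    exact absurd h2 (not_lt.2 (one_le_mul_of_one_le_of_one_le hge hge))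
  have h4 := le_of_lt_one h3
  have h5 : v (t + 1) ≤ exp (-1 : ℤ) := by
    have h5 : t + 1 = (t - 1) + 2 := by ring
    rw [h5]
    exact le_trans (v.map_add _ _) (max_le h4 hv2.le)
  have h6 : t ^ 2 - 1 = (t - 1) * (t + 1) := by ring
  rw [h6, v.map_mul]
  calc v (t - 1) * v (t + 1) ≤ exp (-1 : ℤ) * exp (-1 : ℤ) := mul_le_mul' h4 h5
    _ = exp (-2 : ℤ) := by rw [← exp_add]; norm_num

theorem factC (hv2 : v 2 = exp (-1 : ℤ)) {a : ℤ} (ha : a % 4 = 1) {t : L}
    (h : v ((a : L) * t ^ 2 - 1) < 1) : v ((a : L) * t ^ 2 - 1) ≤ exp (-2 : ℤ) := by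
  have h1 := factB hv2 (by omega : a % 2 = 1) h
  have h2 : (a : L) * t ^ 2 - 1 = (a : L) * (t ^ 2 - 1) + ((4 * (a / 4) : ℤ) : L) := by
    have h3 : (4 * (a / 4) : ℤ) = a - 1 := by omega
    rw [h3]; push_cast; ring
  rw [h2]
  refine le_trans (v.map_add _ _) (max_le ?_ (v4mul hv2 _))
  rw [v.map_mul]
  calc v (a : L) * v (t ^ 2 - 1) ≤ 1 * exp (-2 : ℤ) := mul_le_mul' (v_int_le v a) h1
    _ = exp (-2 : ℤ) := one_mul _

theorem factA (hv2 : v 2 = exp (-1 : ℤ)) {a : ℤ} (ha : Squarefree a.natAbs) {t : L}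
    (h : v ((a : L) * t ^ 2 - 1) ≤ exp (-2 : ℤ)) : a % 4 = 1 := by
  have hv : v ((2 : ℕ) : L) = exp (-1 : ℤ) := by simpa using hv2
  obtain ⟨ha0, hA⟩ := W_sf Nat.prime_two hv ha
  push_cast at hA
  have hlt : v ((a : L) * t ^ 2 - 1) < 1 := lt_of_le_of_lt h exp_m2_lt
  have h1 : v ((a : L) * t ^ 2) = 1 := by
    have h2 : (a : L) * t ^ 2 = ((a : L) * t ^ 2 - 1) + 1 := by ring
    rw [h2]
    have := v.map_add_eq_of_lt_right (x := (a : L) * t ^ 2 - 1) (y := 1) (by rw [v.map_one]; exact hlt)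
    rw [this, v.map_one]
  have ht : t ≠ 0 := by
    rintro rfl
    simp at h1
  have h2 : W v (a : L) + 2 * W v t = 0 := by
    rw [← W_sq v ht, ← W_mul v ha0 (pow_ne_zero 2 ht), W, h1, log_one]
  have ha2 : a % 2 = 1 := by omega
  have h3 := factB hv2 ha2 hlt
  have h4 : v ((2 * (a / 2) : ℤ) : L) ≤ exp (-2 : ℤ) := by
    have h5 : (2 * (a / 2) : ℤ) = a - 1 := by omega
    have h6 : ((2 * (a / 2) : ℤ) : L) = ((a : L) * t ^ 2 - 1) - (a : L) * (t ^ 2 - 1) := by
      rw [h5]; push_cast; ring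
    rw [h6]
    refine le_trans (v.map_sub _ _) (max_le h ?_)
    rw [v.map_mul]
    calc v (a : L) * v (t ^ 2 - 1) ≤ 1 * exp (-2 : ℤ) := mul_le_mul' (v_int_le v a) h3
      _ = exp (-2 : ℤ) := one_mul _
  by_contra h5
  have h6 : ¬ ((2 : ℕ) : ℤ) ∣ a / 2 := by
    intro h7
    have h8 : (2 : ℤ) ∣ a / 2 := by exact_mod_cast h7
    omega
  have h7 : v ((a / 2 : ℤ) : L) = 1 := v_int_one Nat.prime_two hv h6
  rw [Int.cast_mul, v.map_mul, h7, mul_one, Int.cast_ofNat, hv2] at h4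
  have := WithZero.exp_le_exp.1 h4
  omega

theorem t_N2 : S_N2 := by
  intro L _ v hv2 a b ha hb him
  have hp : (2 : ℕ).Prime := Nat.prime_two
  have hv : v ((2 : ℕ) : L) = exp (-1 : ℤ) := by simpa using hv2
  obtain ⟨ha0, hA⟩ := W_sf hp hv ha
  obtain ⟨hb0, hB⟩ := W_sf hp hv hb
  have h2 : (2 : L) ≠ 0 := by simpa using p_ne (L := L) hv
  have w2 : W v (2 : L) = -1 := by simpa using W_p (L := L) hv
  have h4 : (4 : L) ≠ 0 := by
    have : (4 : L) = 2 * 2 := by norm_num
    rw [this]; exact mul_ne_zero h2 h2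
  have w4 : W v (4 : L) = -2 := by
    have : (4 : L) = 2 * 2 := by norm_num
    rw [this, W_mul v h2 h2, w2]; norm_num
  have h8 : (8 : L) ≠ 0 := by
    have : (8 : L) = 2 * 4 := by norm_num
    rw [this]; exact mul_ne_zero h2 h4
  have w8 : W v (8 : L) = -3 := by
    have : (8 : L) = 2 * 4 := by norm_num
    rw [this, W_mul v h2 h4, w2, w4]; norm_num
  have h16 : (16 : L) ≠ 0 := by
    have : (16 : L) = 4 * 4 := by norm_num
    rw [this]; exact mul_ne_zero h4 h4
  have w16 : W v (16 : L) = -4 := by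
    have : (16 : L) = 4 * 4 := by norm_num
    rw [this, W_mul v h4 h4, w4]; norm_num
  have h9 : (9 : L) ≠ 0 := by
    simpa using int_ne (L := L) hp hv (m := 9) (by norm_num)
  have w9 : W v (9 : L) = 0 := by
    simpa using W_one (L := L) hp hv (m := 9) (by norm_num)
  push_cast at hA hB
  rcases him with ⟨⟨s, hs⟩, ⟨t, ht⟩⟩ | ⟨x, u, v', w, hx, hy, hz⟩
  · have hs0 : s ≠ 0 := by rintro rfl; apply ha0; rw [hs]; ring
    have ht0 : t ≠ 0 := by rintro rfl; apply hb0; rw [ht]; ring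
    refine ⟨factA hv2 ha (t := s⁻¹) ?_, ?_⟩
    · have : (a : L) * s⁻¹ ^ 2 - 1 = 0 := by
        rw [hs]; field_simp; ring
      rw [this, v.map_zero]; exact zero_le
    · rw [ht, W_mul v ht0 ht0] at hB
      omega
  · rw [sub_zero] at hx
    by_cases e1 : x = 9
    · have hxx : (a : L) * u ^ 2 - 1 = 8 := by rw [← hx, e1]; norm_num
      have ha4 : a % 4 = 1 := by
        refine factA hv2 ha (t := u) ?_
        rw [hxx, le_iff v h8, w8]; norm_num
      refine ⟨ha4, ?_⟩
      have hw0 : w ≠ 0 := by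
        rintro rfl
        apply h16; rw [e1] at hz; linear_combination -hz
      have e2 : W v (-16 : L) = W v (a : L) + W v (b : L) + 2 * W v w := by
        rw [← W_mul v ha0 hb0, ← W_sq v hw0, ← W_mul v (mul_ne_zero ha0 hb0) (pow_ne_zero 2 hw0), ← hz, e1]; ring_nf
      rw [W_neg] at e2
      omega
    have hX1 : x - 9 ≠ 0 := sub_ne_zero.2 e1
    have hv0 : v' ≠ 0 := by
      rintro rfl
      apply hX1; rw [hy]; ring
    have f1 : W v (x - 9) = W v (b : L) + 2 * W v v' := by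
      rw [← W_sq v hv0, ← W_mul v hb0 (pow_ne_zero 2 hv0), ← hy]
    -- ρ
    have rho : (a : L) * (w / v') ^ 2 - 1 = -16 / (x - 9) := by
      have k1 : (a : L) * (w / v') ^ 2 = (x - 25) / (x - 9) := by
        rw [div_pow, mul_div_assoc', div_eq_div_iff (pow_ne_zero 2 hv0) hX1]
        calc (a : L) * w ^ 2 * (x - 9) = (a * b * w ^ 2) * v' ^ 2 := by rw [hy]; ring
          _ = (x - 25) * v' ^ 2 := by rw [← hz]
      rw [k1]; field_simp; ring
    have vrho : v ((a : L) * (w / v') ^ 2 - 1) = exp (-4 - W v (x - 9)) := by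
      rw [rho, map_div₀, v.map_neg, v_eq v h16, v_eq v hX1, w16, ← exp_sub]
    have hx1 : (a : L) * u ^ 2 - 1 = (x - 9) + 8 := by rw [← hx]; ring
    by_cases hc : -2 ≤ W v (x - 9)
    · have ha4 : a % 4 = 1 := by
        refine factA hv2 ha (t := w / v') ?_
        rw [vrho]
        exact WithZero.exp_le_exp.2 (by omega)
      refine ⟨ha4, ?_⟩
      by_cases hpos : 0 < W v (x - 9)
      · by_cases e0 : x = 0
        · rw [e0, zero_sub, W_neg, w9] at hpos
          omega
        have hu0 : u ≠ 0 := by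
          rintro rfl
          apply e0; rw [hx]; ring
        have f0 : W v x = W v (a : L) + 2 * W v u := by
          rw [← W_sq v hu0, ← W_mul v ha0 (pow_ne_zero 2 hu0), ← hx]
        have t1 := tri v e0 hX1 h9 (by ring : x = (x - 9) + 9)
        omega
      · by_cases hm1 : W v (x - 9) = -1
        · exfalso
          have hlt : v (8 : L) < v (x - 9) := by
            rw [v_eq v h8, v_eq v hX1, w8, hm1]
            exact WithZero.exp_lt_exp.2 (by norm_num)
          have k1 : v ((a : L) * u ^ 2 - 1) = exp (-1 : ℤ) := by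
            rw [hx1, v.map_add_eq_of_lt_left hlt, v_eq v hX1, hm1]
          have k2 := factC hv2 ha4 (t := u) (by rw [k1]; exact exp_m1_lt)
          rw [k1] at k2
          have := WithZero.exp_le_exp.1 k2
          omega
        · omega
    · have ha4 : a % 4 = 1 := by
        refine factA hv2 ha (t := u) ?_
        rw [hx1]
        refine le_trans (v.map_add _ _) (max_le ?_ ?_)
        · rw [le_iff v hX1]; omega
        · rw [le_iff v h8, w8]; norm_num
      refine ⟨ha4, ?_⟩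
      by_cases hm3 : W v (x - 9) = -3
      · exfalso
        have k2 := factC hv2 ha4 (t := w / v') (by
          rw [vrho, hm3, ← exp_zero]; exact WithZero.exp_lt_exp.2 (by norm_num))
        rw [vrho, hm3] at k2
        have := WithZero.exp_le_exp.1 k2
        omega
      · by_cases e2 : x = 25
        · have : W v (x - 9) = -4 := by
            rw [e2, ← w16]; norm_num
          omega
        have hX2 : x - 25 ≠ 0 := sub_ne_zero.2 e2
        have hw0 : w ≠ 0 := by
          rintro rfl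
          apply hX2; rw [hz]; ring
        have f2 : W v (x - 25) = W v (a : L) + W v (b : L) + 2 * W v w := by
          rw [← W_mul v ha0 hb0, ← W_sq v hw0, ← W_mul v (mul_ne_zero ha0 hb0) (pow_ne_zero 2 hw0), ← hz]
        have t1 := tri v hX1 hX2 h16 (by ring : x - 9 = (x - 25) + 16)
        omega

end Run7.h890.XK
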