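import Pool.Agent.Run7.h890.XK.Val
import Pool.Agent.Run7.h135.XK.Stm

set_option autoImplicit false

open WithZero

namespace Run7.h890.XK

open Run7.h135.XK

theorem t_N3 : S_N3 := by
  intro L _ v hv3 hres a b ha hb him
  have hp : (3 : ℕ).Prime := Nat.prime_three
  have hv : v ((3 : ℕ) : L) = exp (-1 : ℤ) := by simpa using hv3
  obtain ⟨ha0, hA⟩ := W_sf hp hv ha
  obtain ⟨hb0, hB⟩ := W_sf hp hv hb
  have h3 : (3 : L) ≠ 0 := by simpa using p_ne (L := L) hv
  have w3 : W v (3 : L) = -1 := by simpa using W_p (L := L) hv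
  have h9 : (9 : L) ≠ 0 := by
    have : (9 : L) = 3 * 3 := by norm_num
    rw [this]; exact mul_ne_zero h3 h3
  have w9 : W v (9 : L) = -2 := by
    have : (9 : L) = 3 * 3 := by norm_num
    rw [this, W_mul v h3 h3, w3]; norm_num
  have h16 : (16 : L) ≠ 0 := by
    simpa using int_ne (L := L) hp hv (m := 16) (by norm_num)
  have w16 : W v (16 : L) = 0 := by
    simpa using W_one (L := L) hp hv (m := 16) (by norm_num)
  have h25 : (25 : L) ≠ 0 := by
    simpa using int_ne (L := L) hp hv (m := 25) (by norm_num)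
  have w25 : W v (25 : L) = 0 := by
    simpa using W_one (L := L) hp hv (m := 25) (by norm_num)
  have w24 : v (24 : L) ≤ exp (-1 : ℤ) := by
    have h8 : v (8 : L) ≤ 1 := by simpa using v_int_le v (8 : ℤ)
    have : (24 : L) = 8 * 3 := by norm_num
    rw [this, v.map_mul, hv3]
    calc v (8 : L) * exp (-1 : ℤ) ≤ 1 * exp (-1 : ℤ) := mul_le_mul_left h8 _
      _ = exp (-1 : ℤ) := one_mul _
  push_cast at hA hB
  rcases him with ⟨⟨s, hs⟩, ⟨t, ht⟩⟩ | ⟨x, u, v', w, hx, hy, hz⟩
  · have hs0 : s ≠ 0 := by rintro rfl; simp at hs; exact ha0 (by exact_mod_cast hs)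
    have ht0 : t ≠ 0 := by rintro rfl; simp at ht; exact hb0 (by exact_mod_cast ht)
    rw [hs, W_mul v hs0 hs0] at hA
    rw [ht, W_mul v ht0 ht0] at hB
    omega
  · by_cases e0 : x = 0
    · rw [e0] at hy hz
      have hv0 : v' ≠ 0 := by
        rintro rfl
        apply h9; linear_combination -hy
      have hw0 : w ≠ 0 := by
        rintro rfl
        apply h25; linear_combination -hz
      have e1 : W v (-9 : L) = W v (b : L) + 2 * W v v' := by
        rw [← W_sq v hv0, ← W_mul v hb0 (pow_ne_zero 2 hv0), ← hy]; ring_nf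
      have e2 : W v (-25 : L) = W v (a : L) + W v (b : L) + 2 * W v w := by
        rw [← W_mul v ha0 hb0, ← W_sq v hw0, ← W_mul v (mul_ne_zero ha0 hb0) (pow_ne_zero 2 hw0), ← hz]; ring_nf
      rw [W_neg] at e1 e2
      omega
    by_cases e1 : x = 9
    · rw [e1] at hx hz
      have hu0 : u ≠ 0 := by
        rintro rfl
        apply h9; linear_combination hx
      have hw0 : w ≠ 0 := by
        rintro rfl
        apply h16; linear_combination -hz
      have e1 : W v (9 : L) = W v (a : L) + 2 * W v u := by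
        rw [← W_sq v hu0, ← W_mul v ha0 (pow_ne_zero 2 hu0), ← hx]; ring_nf
      have e2 : W v (-16 : L) = W v (a : L) + W v (b : L) + 2 * W v w := by
        rw [← W_mul v ha0 hb0, ← W_sq v hw0, ← W_mul v (mul_ne_zero ha0 hb0) (pow_ne_zero 2 hw0), ← hz]; ring_nf
      rw [W_neg] at e2
      omega
    by_cases e2 : x = 25
    · rw [e2] at hx hy
      have hu0 : u ≠ 0 := by
        rintro rfl
        apply h25; linear_combination hx
      have hv0 : v' ≠ 0 := by
        rintro rfl
        apply h16; linear_combination hy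
      have e1 : W v (25 : L) = W v (a : L) + 2 * W v u := by
        rw [← W_sq v hu0, ← W_mul v ha0 (pow_ne_zero 2 hu0), ← hx]; ring_nf
      have e2 : W v (16 : L) = W v (b : L) + 2 * W v v' := by
        rw [← W_sq v hv0, ← W_mul v hb0 (pow_ne_zero 2 hv0), ← hy]; ring_nf
      omega
    have hX1 : x - 9 ≠ 0 := sub_ne_zero.2 e1
    have hX2 : x - 25 ≠ 0 := sub_ne_zero.2 e2
    rw [sub_zero] at hx
    have hu0 : u ≠ 0 := by
      rintro rfl
      apply e0; rw [hx]; ring
    have hv0 : v' ≠ 0 := by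
      rintro rfl
      apply hX1; rw [hy]; ring
    have hw0 : w ≠ 0 := by
      rintro rfl
      apply hX2; rw [hz]; ring
    have f0 : W v x = W v (a : L) + 2 * W v u := by
      rw [← W_sq v hu0, ← W_mul v ha0 (pow_ne_zero 2 hu0), ← hx]
    have f1 : W v (x - 9) = W v (b : L) + 2 * W v v' := by
      rw [← W_sq v hv0, ← W_mul v hb0 (pow_ne_zero 2 hv0), ← hy]
    have f2 : W v (x - 25) = W v (a : L) + W v (b : L) + 2 * W v w := by
      rw [← W_mul v ha0 hb0, ← W_sq v hw0, ← W_mul v (mul_ne_zero ha0 hb0) (pow_ne_zero 2 hw0), ← hz]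
    have t1 := tri v e0 hX1 h9 (by ring : x = (x - 9) + 9)
    have t2 := tri v e0 hX2 h25 (by ring : x = (x - 25) + 25)
    by_cases hs : W v x = -1 ∧ W v (x - 9) = -1
    · exfalso
      obtain ⟨s1, s2⟩ := hs
      have s3 : W v (x - 25) = 0 := by omega
      -- t = w x / (u v)
      apply hres (w * x / (u * v'))
      have key : (w * x / (u * v')) ^ 2 + 1 = (x ^ 2 - 24 * x - 9) / (x - 9) := by
        have hab : (a : L) * u ^ 2 * ((b : L) * v' ^ 2) ≠ 0 := by
          rw [← hx, ← hy]; exact mul_ne_zero e0 hX1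
        have k1 : (w * x / (u * v')) ^ 2 = (x - 25) * x / (x - 9) := by
          rw [div_pow, div_eq_div_iff (pow_ne_zero 2 (mul_ne_zero hu0 hv0)) hX1]
          have : x ^ 2 * (w ^ 2 * (x - 9)) = x * (x * w ^ 2 * (x - 9)) := by ring
          calc (w * x) ^ 2 * (x - 9) = x * (w ^ 2 * x * (x - 9)) := by ring
            _ = x * (w ^ 2 * (a * u ^ 2) * (b * v' ^ 2)) := by rw [← hx, ← hy]
            _ = x * ((a * b * w ^ 2) * (u * v') ^ 2) := by ring
            _ = x * ((x - 25) * (u * v') ^ 2) := by rw [← hz]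
            _ = (x - 25) * x * (u * v') ^ 2 := by ring
        rw [k1]
        field_simp
        ring
      rw [key, map_div₀]
      have vx : v x = exp (-1 : ℤ) := by rw [v_eq v e0, s1]
      have vX : v (x - 9) = exp (-1 : ℤ) := by rw [v_eq v hX1, s2]
      have v9 : v (9 : L) = exp (-2 : ℤ) := by rw [v_eq v h9, w9]
      have num : v (x ^ 2 - 24 * x - 9) ≤ exp (-2 : ℤ) := by
        refine le_trans (v.map_sub _ _) (max_le (le_trans (v.map_sub _ _) (max_le ?_ ?_)) v9.le)
        · rw [v.map_pow, vx, ← WithZero.exp_nsmul]; exact le_rfl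
        · rw [v.map_mul, vx]
          calc v (24 : L) * exp (-1 : ℤ) ≤ exp (-1 : ℤ) * exp (-1 : ℤ) := mul_le_mul_left w24 _
            _ = exp (-2 : ℤ) := by rw [← exp_add]; norm_num
      rw [vX]
      calc v (x ^ 2 - 24 * x - 9) / exp (-1 : ℤ) ≤ exp (-2 : ℤ) / exp (-1 : ℤ) := by
            gcongr
            exact zero_le
        _ = exp (-1 : ℤ) := by rw [← exp_sub]; norm_num
        _ < 1 := by rw [← exp_zero]; exact WithZero.exp_lt_exp.2 (by norm_num)
    · omega

end Run7.h890.XK
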