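import Mathlib

set_option autoImplicit false

open WithZero

namespace Run7.h890.XK

variable {L : Type} [Field L] (v : Valuation L ℤᵐ⁰)

/-- the additive value, an integer (zero at zero) -/
noncomputable def W (x : L) : ℤ := log (v x)

theorem v_eq {x : L} (hx : x ≠ 0) : v x = exp (W v x) := by
  rw [W, exp_log]
  exact (v.ne_zero_iff).2 hx

theorem W_mul {x y : L} (hx : x ≠ 0) (hy : y ≠ 0) : W v (x * y) = W v x + W v y := by
  rw [W, W, W, v.map_mul, log_mul ((v.ne_zero_iff).2 hx) ((v.ne_zero_iff).2 hy)]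

theorem W_neg (x : L) : W v (-x) = W v x := by
  rw [W, W, v.map_neg]

theorem W_sq {x : L} (hx : x ≠ 0) : W v (x ^ 2) = 2 * W v x := by
  rw [sq, W_mul v hx hx]; ring

theorem W_div {x y : L} (hx : x ≠ 0) (hy : y ≠ 0) : W v (x / y) = W v x - W v y := by
  have h : x = (x / y) * y := by field_simp
  have h2 : W v x = W v (x / y) + W v y := by
    conv_lhs => rw [h]
    exact W_mul v (div_ne_zero hx hy) hy
  omega

theorem le_iff {x : L} (hx : x ≠ 0) (k : ℤ) : v x ≤ exp k ↔ W v x ≤ k := by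
  rw [v_eq v hx]
  exact WithZero.exp_le_exp

theorem lt_iff {x : L} (hx : x ≠ 0) (k : ℤ) : v x < exp k ↔ W v x < k := by
  rw [v_eq v hx]
  exact WithZero.exp_lt_exp

theorem W_add {x y : L} (hx : x ≠ 0) (hy : y ≠ 0) (hxy : x + y ≠ 0) :
    W v (x + y) ≤ W v x ∨ W v (x + y) ≤ W v y := by
  have h := v.map_add x y
  rw [le_max_iff] at h
  rcases h with h | h
  · left
    rw [v_eq v hx] at h
    exact (le_iff v hxy _).1 h
  · right
    rw [v_eq v hy] at h
    exact (le_iff v hxy _).1 h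

/-- the ultrametric triangle for `x = y + z` -/
theorem tri {x y z : L} (hx : x ≠ 0) (hy : y ≠ 0) (hz : z ≠ 0) (h : x = y + z) :
    (W v x ≤ W v y ∨ W v x ≤ W v z) ∧ (W v y ≤ W v x ∨ W v y ≤ W v z) ∧
      (W v z ≤ W v x ∨ W v z ≤ W v y) := by
  refine ⟨?_, ?_, ?_⟩
  · rw [h]; exact W_add v hy hz (h ▸ hx)
  · have h2 : y = x + -z := by rw [h]; ring
    have := W_add v hx (neg_ne_zero.2 hz) (h2 ▸ hy)
    rw [← h2, W_neg] at this
    exact this
  · have h2 : z = x + -y := by rw [h]; ring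
    have := W_add v hx (neg_ne_zero.2 hy) (h2 ▸ hz)
    rw [← h2, W_neg] at this
    exact this

theorem v_int_le (m : ℤ) : v (m : L) ≤ 1 := by
  induction m using Int.induction_on with
  | zero => simp
  | succ i ih =>
    push_cast at ih ⊢
    exact le_trans (v.map_add _ _) (max_le ih (by simp))
  | pred i ih =>
    push_cast at ih ⊢
    exact le_trans (v.map_sub _ _) (max_le ih (by simp))

variable {v}

theorem v_int_one {p : ℕ} (hp : p.Prime) (hv : v (p : L) = exp (-1 : ℤ)) {m : ℤ} (hm : ¬ (p : ℤ) ∣ m) :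
    v (m : L) = 1 := by
  have hc : IsCoprime (p : ℤ) m := (Prime.coprime_iff_not_dvd (Nat.prime_iff_prime_int.1 hp)).2 hm
  obtain ⟨x, y, hxy⟩ := hc
  refine le_antisymm (v_int_le v m) ?_
  by_contra hlt
  push Not at hlt
  have h1 : v ((x * p + y * m : ℤ) : L) < 1 := by
    push_cast
    refine lt_of_le_of_lt (v.map_add _ _) (max_lt ?_ ?_)
    · rw [v.map_mul, hv]
      have : v (x : L) ≤ 1 := v_int_le v x
      calc v (x : L) * exp (-1 : ℤ) ≤ 1 * exp (-1 : ℤ) := mul_le_mul_left this _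
        _ < 1 := by rw [one_mul, ← exp_zero]; exact WithZero.exp_lt_exp.2 (by norm_num)
    · rw [v.map_mul]
      exact lt_of_le_of_lt (mul_le_of_le_one_left' (v_int_le v y)) hlt
  rw [hxy] at h1
  simp at h1

theorem int_ne {p : ℕ} (hp : p.Prime) (hv : v (p : L) = exp (-1 : ℤ)) {m : ℤ} (hm : ¬ (p : ℤ) ∣ m) :
    (m : L) ≠ 0 := by
  intro h
  have := v_int_one hp hv hm
  rw [h] at this
  simp at this

theorem W_one {p : ℕ} (hp : p.Prime) (hv : v (p : L) = exp (-1 : ℤ)) {m : ℤ} (hm : ¬ (p : ℤ) ∣ m) :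
    W v (m : L) = 0 := by
  rw [W, v_int_one hp hv hm]; rfl

theorem p_ne {p : ℕ} (hv : v (p : L) = exp (-1 : ℤ)) : (p : L) ≠ 0 := by
  intro h
  rw [h, v.map_zero] at hv
  exact (exp_ne_zero hv.symm)

theorem W_p {p : ℕ} (hv : v (p : L) = exp (-1 : ℤ)) : W v (p : L) = -1 := by
  rw [W, hv, log_exp]

/-- squarefree integers -/
theorem W_sf {p : ℕ} (hp : p.Prime) (hv : v (p : L) = exp (-1 : ℤ)) {m : ℤ}
    (hm : Squarefree m.natAbs) : (m : L) ≠ 0 ∧
      ((¬ (p : ℤ) ∣ m ∧ W v (m : L) = 0) ∨ ((p : ℤ) ∣ m ∧ W v (m : L) = -1)) := by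
  by_cases h : (p : ℤ) ∣ m
  · obtain ⟨k, hk⟩ := h
    have hk2 : ¬ (p : ℤ) ∣ k := by
      rintro ⟨l, hl⟩
      have h1 : p * p ∣ m.natAbs := by
        rw [hk, hl, Int.natAbs_mul, Int.natAbs_mul, Int.natAbs_natCast, ← mul_assoc]
        exact Dvd.intro _ rfl
      have := hm p h1
      exact hp.one_lt.ne' (Nat.isUnit_iff.1 this)
    have hm' : (m : L) = (p : L) * (k : L) := by rw [hk]; push_cast; ring
    have hne : (m : L) ≠ 0 := by
      rw [hm']; exact mul_ne_zero (p_ne hv) (int_ne hp hv hk2)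
    refine ⟨hne, Or.inr ⟨⟨k, hk⟩, ?_⟩⟩
    rw [hm', W_mul v (p_ne hv) (int_ne hp hv hk2), W_p hv, W_one hp hv hk2]
    norm_num
  · exact ⟨int_ne hp hv h, Or.inl ⟨h, W_one hp hv h⟩⟩

end Run7.h890.XK
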